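import Pool.Agent.Helper54.SAW2.Stmts

set_option autoImplicit false

/-!
# Block 3: closure of the double folding
-/

namespace Pool.Agent.Helper42.SAW2

open Pool.Agent.Helper54.SAW Pool.Agent.Helper54.SAW2

open Classical in
theorem hc_split (x y : ℕ → ℤ) {i0 i1 i2 : ℕ} (h01 : i0 ≤ i1) (h12 : i1 ≤ i2) (c h : ℤ) :
    hc x y i0 i2 c h = hc x y i0 i1 c h + hc x y i1 i2 c h := by
  unfold hc
  rw [← Finset.Ico_union_Ico_eq_Ico h01 h12, Finset.filter_union,
    Finset.card_union_of_disjoint]
  exact Finset.disjoint_filter_filter (Finset.Ico_disjoint_Ico_consecutive i0 i1 i2)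

open Classical in
theorem hc_zero {x y : ℕ → ℤ} {i0 i1 : ℕ} {c h : ℤ}
    (H : ∀ i, i0 ≤ i → i < i1 → ¬ ((x i = c ∧ x (i + 1) = c + 1) ∨
      (x i = c + 1 ∧ x (i + 1) = c))) : hc x y i0 i1 c h = 0 := by
  unfold hc
  rw [Finset.card_eq_zero, Finset.filter_eq_empty_iff]
  intro i hi hcon
  rw [Finset.mem_Ico] at hi
  exact H i hi.1 hi.2 hcon.2.2

open Classical in
theorem hc_congr {x x' y : ℕ → ℤ} {i0 i1 : ℕ} {c c' h : ℤ}
    (H : ∀ i, i0 ≤ i → i < i1 → (((x i = c ∧ x (i + 1) = c + 1) ∨
      (x i = c + 1 ∧ x (i + 1) = c)) ↔ ((x' i = c' ∧ x' (i + 1) = c' + 1) ∨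
      (x' i = c' + 1 ∧ x' (i + 1) = c')))) : hc x y i0 i1 c h = hc x' y i0 i1 c' h := by
  unfold hc
  congr 1
  apply Finset.filter_congr
  intro i hi
  rw [Finset.mem_Ico] at hi
  rw [H i hi.1 hi.2]

theorem refl_le {x : ℕ → ℤ} {t i : ℕ} (h : i ≤ t) : refl x t i = x i := if_pos h

theorem refl_ge {x : ℕ → ℤ} {t i : ℕ} (h : t ≤ i) : refl x t i = 2 * x t - x i := by
  unfold Pool.Agent.Helper54.SAW2.refl
  split_ifs with h'
  · have : i = t := le_antisymm h' h
    rw [this]; ring
  · rfl

theorem NN_refl {x y : ℕ → ℤ} {n t : ℕ} (h : NN x y n) : NN (refl x t) y n := by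
  intro i hi
  have h1 := h i hi
  unfold Stp at h1 ⊢
  rcases lt_or_ge i t with h2 | h2
  · rw [refl_le h2.le, refl_le h2]
    exact h1
  · rw [refl_ge h2, refl_ge (by omega : t ≤ i + 1)]
    omega

theorem closure (hT : TransportS) (hTR : TransportRS) (hA : SigAS) (hB : SigBS) : ClosureS := by
  intro x y n p q hNN hpq hqn hR hL hAp hAq tp tq hTp hTq htp0 htq0 hyp hyq c c' h0c hpc hcb hcutA
    h0c' hqc' hc'a hcutB i j hij hjn hcol
  have hZle : ∀ k, k ≤ q → refl (refl x p) q k = refl x p k := fun k hk => refl_le hk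
  have hpq' : refl x p q = 2 * x p - x q := refl_ge hpq.le
  have hZge : ∀ k, p ≤ k → refl (refl x p) q k = 2 * x p - refl x q k := by
    intro k hk
    rcases le_total k q with hkq | hkq
    · rw [refl_le hkq, refl_ge hk, refl_le hkq]
    · rw [refl_ge hkq, hpq', refl_ge hk, refl_ge hkq]
      ring
  obtain ⟨hx, hy⟩ := hcol
  rcases le_or_gt j q with hjq | hjq
  · rw [hZle i (by omega), hZle j hjq] at hx
    exact hAp i j hij hjn ⟨hx, hy⟩
  rcases le_or_gt p i with hpi | hip
  · rw [hZge i hpi, hZge j (by omega)] at hx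
    exact hAq i j hij hjn ⟨by omega, hy⟩
  -- now `i < p` and `q < j`
  rw [hZle i (by omega), refl_le hip.le, hZge j (by omega), refl_ge hjq.le] at hx
  have hLj := hL j hjq hjn
  have hRi := hR i hip.le
  have hζb : 2 * x p - x q < x i := by omega
  have hqa : x p < x q := by omega
  have hNNp : NN (refl x p) y n := NN_refl hNN
  have hNNq : NN (refl x q) y n := NN_refl hNN
  -- part 1
  have part1 : hc x y p q (2 * x p - x i) (y i) % 2 = 0 := by
    obtain ⟨s, hst, hs1, hs2⟩ := hcutA
    have hsp : s < p := by
      by_contra hcon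
      have := hs1 p (by omega)
      rw [refl_le le_rfl] at this
      omega
    have hptp : p ≤ tp := by
      by_contra hcon
      have h1 := hTp.2.2 p (by omega) (by omega)
      rw [refl_le le_rfl, refl_le (by omega : tp ≤ p)] at h1
      have := hR tp (by omega)
      omega
    have hsi : s < i := by
      by_contra hcon
      have := hs1 i (by omega)
      rw [refl_le hip.le] at this
      omega
    have h1 := hA (refl x p) y n tp hNNp hAp hTp htp0 hyp c s hst hs1 hs2 hpc
    have h2 : hc (refl x p) y p tp c (y s) = 0 := by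
      apply hc_zero
      intro k hk1 hk2
      have e1 := hs2 k (by omega) (by omega)
      have e2 := hs2 (k + 1) (by omega) (by omega)
      omega
    have h3 : hc (refl x p) y p n c (y s) % 2 = 0 := by
      rw [hc_split _ _ hptp hTp.1, h2, zero_add]
      exact h1
    have hstep := hNNp s (by omega)
    have e1 := hs1 s le_rfl
    have e2 := hs2 (s + 1) (by omega) (by omega)
    have e3 : refl x p (s + 1) - 1 = c ∧ y (s + 1) = y s := by
      unfold Stp at hstep
      omega
    have h4 := hT (refl x p) y p n (by omega) (fun k _ hk => hNNp k hk) (refl x p) y (s + 1) i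
      (by omega) (fun k _ hk => hNNp k (by omega)) c (x p)
      (by
        intro k hk1 hk2
        refine ⟨hs2 k (by omega) (by omega), ?_⟩
        rw [refl_le (by omega)]
        exact hR k (by omega))
      (Or.inr (by rw [refl_le le_rfl])) (Or.inl hpc)
      (by
        intro k l hk1 hk2 hl1 hl2 hkl
        exact hAp l k (by omega) hk2 ⟨hkl.1.symm, hkl.2.symm⟩)
    rw [e3.1, e3.2, h3, refl_le hip.le] at h4
    have h5 : hc (refl x p) y q n (x i - 1) (y i) = 0 := by
      apply hc_zero
      intro k hk1 hk2
      have f1 : refl x p k ≤ 2 * x p - x q := by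
        rw [refl_ge (by omega : p ≤ k)]
        rcases hk1.eq_or_lt with h | h
        · rw [h]
        · have := hL k h (by omega)
          omega
      have f2 : refl x p (k + 1) ≤ 2 * x p - x q := by
        rw [refl_ge (by omega : p ≤ k + 1)]
        have := hL (k + 1) (by omega) (by omega)
        omega
      omega
    rw [hc_split _ _ hpq.le hqn, h5, add_zero] at h4
    have h6 : hc (refl x p) y p q (x i - 1) (y i) = hc x y p q (2 * x p - x i) (y i) := by
      apply hc_congr
      intro k hk1 hk2
      rw [refl_ge hk1, refl_ge (by omega : p ≤ k + 1)]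
      omega
    rw [h6] at h4
    exact h4.symm
  -- part 2
  have part2 : hc x y p q (2 * x p - x i) (y i) % 2 = 1 := by
    obtain ⟨s, hts, hsn, hs1, hs2⟩ := hcutB
    have hqs : q ≤ s := by
      by_contra hcon
      have := hs2 q (by omega) hqn
      rw [refl_le le_rfl] at this
      omega
    have htq : tq ≤ q := by
      by_contra hcon
      have h1 := hTq.2.1 q (by omega)
      rw [refl_le le_rfl, refl_ge (by omega : q ≤ tq)] at h1
      have := hL tq (by omega) hTq.1
      omega
    have hxj : refl x q j = 2 * x p - x i := by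
      rw [refl_ge hjq.le]
      omega
    have hjs : j ≤ s := by
      by_contra hcon
      have := hs2 j (by omega) hjn
      omega
    have h1 := hB (refl x q) y n tq hNNq hAq hTq htq0 hyq c' s hts hsn hs1 hs2
      (by rw [refl_le (Nat.zero_le _)]; exact h0c')
    have h2 : hc (refl x q) y tq q c' (y s) = 0 := by
      apply hc_zero
      intro k hk1 hk2
      have e1 := hs1 k (by omega) (by omega)
      have e2 := hs1 (k + 1) (by omega) (by omega)
      omega
    have h3 : hc (refl x q) y 0 q c' (y s) % 2 = 1 := by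
      rw [hc_split _ _ (Nat.zero_le tq) htq, h2, add_zero]
      exact h1
    have hstep := hNNq s (by omega)
    have e1 := hs1 s hts le_rfl
    have e2 := hs2 (s + 1) (by omega) (by omega)
    have e3 : refl x q (s + 1) = c' ∧ y (s + 1) = y s := by
      unfold Stp at hstep
      omega
    have h4 := hTR (refl x q) y 0 q (Nat.zero_le _) (fun k _ hk => hNNq k (by omega))
      (refl x q) y j (s + 1) (by omega) (fun k _ hk => hNNq k (by omega)) c' (x q)
      (by
        intro k hk1 hk2
        constructor
        · rcases Nat.lt_or_ge s k with h | h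
          · have : k = s + 1 := by omega
            rw [this, e3.1]
          · exact (hs1 k (by omega) h).le
        · rw [refl_ge (by omega : q ≤ k)]
          have := hL k (by omega) (by omega)
          omega)
      (Or.inl (by rw [refl_le (Nat.zero_le _)]; exact h0c')) (Or.inr (by rw [refl_le le_rfl]))
      (by
        intro k l hk1 hk2 hl1 hl2 hkl
        exact hAq k l (by omega) (by omega) hkl)
    rw [e3.1, e3.2, h3, hxj, ← hy] at h4
    have h5 : hc (refl x q) y 0 p (2 * x p - x i) (y i) = 0 := by
      apply hc_zero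
      intro k hk1 hk2
      have f1 := hR k (by omega)
      have f2 := hR (k + 1) (by omega)
      rw [refl_le (by omega : k ≤ q), refl_le (by omega : k + 1 ≤ q)]
      omega
    rw [hc_split _ _ (Nat.zero_le p) hpq.le, h5, zero_add] at h4
    have h6 : hc (refl x q) y p q (2 * x p - x i) (y i) = hc x y p q (2 * x p - x i) (y i) := by
      apply hc_congr
      intro k hk1 hk2
      rw [refl_le (by omega : k ≤ q), refl_le (by omega : k + 1 ≤ q)]
    rw [h6] at h4
    exact h4
  omega

end Pool.Agent.Helper42.SAW2
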